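import Mathlib
import Pool.Graph.R_seed8.W84.G.Out

set_option autoImplicit false

open Finset

namespace Pool.Agent.H96.QE

/-- a sequence with values `1, -1` satisfying a multiplicative linear recurrence is eventually
periodic -/
theorem per (G : ℕ → ℤ) (hG : ∀ n, G n = 1 ∨ G n = -1) (T : Finset ℕ) (hT : T.Nonempty)
    (m N₀ : ℕ) (hm : 1 ≤ m)
    (hP : ∀ n, N₀ ≤ n → ∏ t ∈ T, G (n + m + t) = ∏ t ∈ T, G (n + t)) :
    ∃ m' : ℕ, 1 ≤ m' ∧ ∃ N₁ : ℕ, ∀ n, N₁ ≤ n → G (n + m') = G n := by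
  classical
  have hne : ∀ n, G n ≠ 0 := by
    intro n
    rcases hG n with h | h <;> rw [h] <;> norm_num
  set K := T.max' hT with hK
  have hKT : K ∈ T := T.max'_mem hT
  have hle : ∀ t ∈ T, t ≤ K := fun t ht => T.le_max' t ht
  set R := m + K with hR
  obtain ⟨j₁, j₂, hj, hst⟩ := Finite.exists_ne_map_eq_of_infinite
    (fun j : ℕ => (fun i : Fin R => decide (G (N₀ + j + i) = 1)))
  have key : ∀ j₁ j₂ : ℕ, j₁ < j₂ →
      (fun i : Fin R => decide (G (N₀ + j₁ + i) = 1)) =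
        (fun i : Fin R => decide (G (N₀ + j₂ + i) = 1)) →
      ∃ m' : ℕ, 1 ≤ m' ∧ ∃ N₁ : ℕ, ∀ n, N₁ ≤ n → G (n + m') = G n := by
    intro j₁ j₂ hlt hst
    have hall : ∀ j, G (N₀ + j₁ + j) = G (N₀ + j₂ + j) := by
      intro j
      induction j using Nat.strong_induction_on with
      | _ j ih =>
        by_cases hjR : j < R
        · have h1 := congrFun hst ⟨j, hjR⟩
          simp only [decide_eq_decide] at h1
          rcases hG (N₀ + j₁ + j) with h2 | h2
          · rw [h2, h1.1 h2]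
          · rcases hG (N₀ + j₂ + j) with h3 | h3
            · exact absurd (h1.2 h3) (by rw [h2]; norm_num)
            · rw [h2, h3]
        · obtain ⟨i, rfl⟩ : ∃ i, j = R + i := ⟨j - R, by omega⟩
          have e1 := hP (N₀ + j₁ + i) (by omega)
          have e2 := hP (N₀ + j₂ + i) (by omega)
          have e3 : ∏ t ∈ T, G (N₀ + j₁ + i + t) = ∏ t ∈ T, G (N₀ + j₂ + i + t) := by
            apply Finset.prod_congr rfl
            intro t ht
            have := ih (i + t) (by have := hle t ht; omega)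
            rw [show N₀ + j₁ + i + t = N₀ + j₁ + (i + t) by ring,
              show N₀ + j₂ + i + t = N₀ + j₂ + (i + t) by ring, this]
          have e4 : ∏ t ∈ T.erase K, G (N₀ + j₁ + i + m + t) =
              ∏ t ∈ T.erase K, G (N₀ + j₂ + i + m + t) := by
            apply Finset.prod_congr rfl
            intro t ht
            have h5 := Finset.mem_erase.1 ht
            have h6 := hle t h5.2
            have := ih (i + m + t) (by have := h5.1; omega)
            rw [show N₀ + j₁ + i + m + t = N₀ + j₁ + (i + m + t) by ring,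
              show N₀ + j₂ + i + m + t = N₀ + j₂ + (i + m + t) by ring, this]
          have e5 : ∏ t ∈ T, G (N₀ + j₁ + i + m + t) = ∏ t ∈ T, G (N₀ + j₂ + i + m + t) := by
            rw [e1, e2, e3]
          rw [← Finset.mul_prod_erase T _ hKT, ← Finset.mul_prod_erase T (fun t => G (N₀ + j₂ + i + m + t)) hKT,
            e4] at e5
          have h7 : ∏ t ∈ T.erase K, G (N₀ + j₂ + i + m + t) ≠ 0 :=
            Finset.prod_ne_zero_iff.2 fun t _ => hne _
          have h8 := mul_right_cancel₀ h7 e5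
          rw [show N₀ + j₁ + (R + i) = N₀ + j₁ + i + m + K by rw [hR]; ring,
            show N₀ + j₂ + (R + i) = N₀ + j₂ + i + m + K by rw [hR]; ring]
          exact h8
    refine ⟨j₂ - j₁, by omega, N₀ + j₁, fun n hn => ?_⟩
    obtain ⟨j, rfl⟩ : ∃ j, n = N₀ + j₁ + j := ⟨n - (N₀ + j₁), by omega⟩
    rw [hall j]
    congr 1
    omega
  rcases lt_or_gt_of_ne hj with h | h
  · exact key j₁ j₂ h hst
  · exact key j₂ j₁ h hst.symm

/-- Liouville's function on the integers -/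
def lam (v : ℤ) : ℤ := if v = 0 then 0 else (-1) ^ (ArithmeticFunction.cardFactors v.natAbs)

theorem lam_val {v : ℤ} (hv : v ≠ 0) : lam v = 1 ∨ lam v = -1 := by
  unfold lam
  rw [if_neg hv]
  exact neg_one_pow_eq_or ℤ _

theorem lam_mul (v w : ℤ) : lam (v * w) = lam v * lam w := by
  unfold lam
  by_cases hv : v = 0
  · simp [hv]
  · by_cases hw : w = 0
    · simp [hw]
    · rw [if_neg hv, if_neg hw, if_neg (mul_ne_zero hv hw), Int.natAbs_mul,
        ArithmeticFunction.cardFactors_mul (Int.natAbs_ne_zero.2 hv) (Int.natAbs_ne_zero.2 hw),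
        pow_add]

/-- a quadratic polynomial of nonsquare discriminant has no integer zero -/
theorem q_ne {a b c : ℤ} (hD : ¬ IsSquare (b ^ 2 - 4 * a * c)) (x : ℤ) :
    a * x ^ 2 + b * x + c ≠ 0 := by
  intro h
  apply hD
  refine ⟨2 * a * x + b, ?_⟩
  linear_combination (-4 * a) * h

/-- both signs beyond every bound on every residue class -/
theorem inf_signs {a b c : ℤ} (hD : ¬ IsSquare (b ^ 2 - 4 * a * c)) {q : ℕ} (r : ℕ) (hq : 1 ≤ q)
    {e : ℤ} (he : e = 1 ∨ e = -1) (B : ℕ) :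
    ∃ n : ℕ, B ≤ n ∧ n ≡ r [MOD q] ∧ lam (a * (n : ℤ) ^ 2 + b * n + c) = e := by
  obtain ⟨N₀, h⟩ := Pool.Agent.W84.G.signs hD r hq he 1 one_pos
  -- choose N large
  have ht : Filter.Tendsto (fun N : ℕ => (N : ℝ) / Real.log N ^ (2 * Real.log 2 + 1))
      Filter.atTop Filter.atTop := by
    have h1 : Filter.Tendsto (fun x : ℝ => x / Real.log x ^ (2 * Real.log 2 + 1))
        Filter.atTop Filter.atTop := by
      have h2 : (fun x : ℝ => Real.log x ^ (2 * Real.log 2 + 1)) =o[Filter.atTop]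
          (fun x : ℝ => x ^ (1 : ℝ)) :=
        isLittleO_log_rpow_rpow_atTop (2 * Real.log 2 + 1) one_pos
      have h3 : Filter.Tendsto (fun x : ℝ => Real.log x ^ (2 * Real.log 2 + 1) / x ^ (1 : ℝ))
          Filter.atTop (nhds 0) := h2.tendsto_div_nhds_zero
      have h4 : Filter.Tendsto (fun x : ℝ => Real.log x ^ (2 * Real.log 2 + 1) / x ^ (1 : ℝ))
          Filter.atTop (nhdsWithin 0 (Set.Ioi 0)) := by
        refine tendsto_nhdsWithin_iff.2 ⟨h3, ?_⟩
        filter_upwards [Filter.eventually_gt_atTop (1 : ℝ)] with x hx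
        have hl := Real.log_pos hx
        have : (0 : ℝ) < x := by linarith
        simp only [Set.mem_Ioi]
        positivity
      have h5 := h4.inv_tendsto_nhdsGT_zero
      refine h5.congr' ?_
      filter_upwards with x
      simp [Real.rpow_one]
    exact h1.comp tendsto_natCast_atTop_atTop
  obtain ⟨N, hN1, hN2⟩ := ((ht.eventually_gt_atTop (B : ℝ)).and
    (Filter.eventually_ge_atTop N₀)).exists
  have h2 := h N hN2
  by_contra hcon
  push Not at hcon
  have h3 : {n : ℕ | 1 ≤ n ∧ n ≤ N ∧ n ≡ r [MOD q] ∧ a * (n : ℤ) ^ 2 + b * n + c ≠ 0 ∧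
        (-1 : ℤ) ^ ArithmeticFunction.cardFactors (a * (n : ℤ) ^ 2 + b * n + c).natAbs = e} ⊆
      ((Finset.range B : Finset ℕ) : Set ℕ) := by
    rintro n ⟨-, -, h4, h5, h6⟩
    rw [Finset.coe_range, Set.mem_Iio]
    by_contra h7
    apply hcon n (not_lt.1 h7) h4
    unfold lam
    rw [if_neg h5, h6]
  have h4 := Set.ncard_le_ncard h3 (Finset.finite_toSet _)
  rw [Set.ncard_coe_finset, Finset.card_range] at h4
  have h5 : (Set.ncard {n : ℕ | 1 ≤ n ∧ n ≤ N ∧ n ≡ r [MOD q] ∧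
      a * (n : ℤ) ^ 2 + b * n + c ≠ 0 ∧
      (-1 : ℤ) ^ ArithmeticFunction.cardFactors (a * (n : ℤ) ^ 2 + b * n + c).natAbs = e} : ℝ) ≤ B :=
    by exact_mod_cast h4
  linarith

/-- eventually periodic -/
def EvPer (f : ℕ → ℤ) : Prop := ∃ m : ℕ, 1 ≤ m ∧ ∃ N₀ : ℕ, ∀ n, N₀ ≤ n → f (n + m) = f n

/-- the value at the shifted argument -/
def sh (a b c : ℤ) (h : ℤ) (n : ℕ) : ℤ := lam (a * ((n : ℤ) + h) ^ 2 + b * ((n : ℤ) + h) + c)

theorem sh_val {a b c : ℤ} (hD : ¬ IsSquare (b ^ 2 - 4 * a * c)) (h : ℤ) (n : ℕ) :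
    sh a b c h n = 1 ∨ sh a b c h n = -1 := lam_val (q_ne hD _)

theorem not_per {a b c : ℤ} (hD : ¬ IsSquare (b ^ 2 - 4 * a * c)) (T : Finset ℤ)
    (hT : T.Nonempty) : ¬ EvPer (fun n => ∏ h ∈ T, sh a b c h n) := by
  classical
  rintro ⟨m, hm, N₀, hP⟩
  set h₀ := T.min' hT with hh₀
  have hmin : ∀ h ∈ T, h₀ ≤ h := fun h hh => T.min'_le h hh
  set G : ℕ → ℤ := fun n => sh a b c h₀ n with hGdef
  set T' : Finset ℕ := T.image (fun h => (h - h₀).toNat) with hT'
  have hinj : Set.InjOn (fun h : ℤ => (h - h₀).toNat) T := by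
    intro x hx y hy hxy
    have h1 := hmin x hx
    have h2 := hmin y hy
    simp only at hxy
    omega
  have hprod : ∀ n : ℕ, ∏ t ∈ T', G (n + t) = ∏ h ∈ T, sh a b c h n := by
    intro n
    rw [hT', Finset.prod_image hinj]
    apply Finset.prod_congr rfl
    intro h hh
    have h1 := hmin h hh
    simp only [hGdef, sh]
    have e : ((n + (h - h₀).toNat : ℕ) : ℤ) + h₀ = n + h := by
      push_cast
      rw [Int.toNat_of_nonneg (by omega)]
      ring
    rw [e]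
  obtain ⟨m', hm', N₁, hper⟩ := per G (fun n => sh_val hD h₀ n) T' (hT.image _) m N₀ hm (by
    intro n hn
    have h1 := hP n hn
    simp only at h1
    rw [hprod, hprod, h1])
  -- constant on a class
  have hconst : ∀ k : ℕ, G (N₁ + m' * k) = G N₁ := by
    intro k
    induction k with
    | zero => simp
    | succ k ih =>
      rw [mul_add, mul_one, ← add_assoc, hper _ (by omega), ih]
  -- the shifted polynomial
  set b' := 2 * a * h₀ + b with hb'
  set c' := a * h₀ ^ 2 + b * h₀ + c with hc'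
  have hD' : ¬ IsSquare (b' ^ 2 - 4 * a * c') := by
    have e : b' ^ 2 - 4 * a * c' = b ^ 2 - 4 * a * c := by rw [hb', hc']; ring
    rwa [e]
  have hq : ∀ n : ℕ, G n = lam (a * (n : ℤ) ^ 2 + b' * n + c') := by
    intro n
    simp only [hGdef, sh]
    congr 1
    rw [hb', hc']; ring
  have hgo : ∀ e : ℤ, (e = 1 ∨ e = -1) → G N₁ = e := by
    intro e he
    obtain ⟨n, hn1, hn2, hn3⟩ := inf_signs hD' (q := m') N₁ hm' he N₁
    obtain ⟨k, rfl⟩ : ∃ k, n = N₁ + m' * k := by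
      have := (Nat.modEq_iff_dvd' hn1).1 hn2.symm
      obtain ⟨k, hk⟩ := this
      exact ⟨k, by omega⟩
    rw [← hconst k, hq, hn3]
  have h1 := hgo 1 (Or.inl rfl)
  have h2 := hgo (-1) (Or.inr rfl)
  rw [h1] at h2
  norm_num at h2

/-- at most one finite set, for an arbitrary sequence of signs -/
theorem one_set {a b c : ℤ} (hD : ¬ IsSquare (b ^ 2 - 4 * a * c)) (u : ℕ → ℤ)
    (hu : ∃ N₀ : ℕ, ∀ n, N₀ ≤ n → u n = 1 ∨ u n = -1) (S T : Finset ℤ)
    (hS : EvPer (fun n => u n * ∏ h ∈ S, sh a b c h n))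
    (hT : EvPer (fun n => u n * ∏ h ∈ T, sh a b c h n)) : S = T := by
  classical
  by_contra hne
  have hsd : (symmDiff S T).Nonempty := by
    rw [Finset.nonempty_iff_ne_empty, Ne, ← Finset.bot_eq_empty, symmDiff_eq_bot]
    exact hne
  apply not_per hD _ hsd
  obtain ⟨m₁, h1, N₁, hS⟩ := hS
  obtain ⟨m₂, h2, N₂, hT⟩ := hT
  obtain ⟨N₃, hu⟩ := hu
  have it : ∀ (f : ℕ → ℤ) (m N : ℕ), (∀ n, N ≤ n → f (n + m) = f n) → ∀ k n, N ≤ n →
      f (n + k * m) = f n := by
    intro f m N hf k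
    induction k with
    | zero => intro n _; simp
    | succ k ih =>
      intro n hn
      rw [add_mul, one_mul, ← add_assoc, hf _ (by omega), ih n hn]
  have hprod : ∀ n, N₃ ≤ n → ∏ h ∈ symmDiff S T, sh a b c h n =
      (u n * ∏ h ∈ S, sh a b c h n) * (u n * ∏ h ∈ T, sh a b c h n) := by
    intro n hn
    have e1 : u n * u n = 1 := by
      rcases hu n hn with h | h <;> rw [h] <;> norm_num
    have e2 : (∏ h ∈ S ∩ T, sh a b c h n) * (∏ h ∈ S ∩ T, sh a b c h n) = 1 := by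
      rw [← Finset.prod_mul_distrib]
      apply Finset.prod_eq_one
      intro h _
      rcases sh_val hD h n with h' | h' <;> rw [h'] <;> norm_num
    have e3 : ∏ h ∈ S, sh a b c h n = (∏ h ∈ S \ T, sh a b c h n) * ∏ h ∈ S ∩ T, sh a b c h n := by
      rw [mul_comm, ← Finset.prod_union (Finset.disjoint_sdiff_inter S T).symm,
        Finset.union_comm, Finset.sdiff_union_inter]
    have e4 : ∏ h ∈ T, sh a b c h n = (∏ h ∈ T \ S, sh a b c h n) * ∏ h ∈ S ∩ T, sh a b c h n := by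
      rw [Finset.inter_comm, mul_comm, ← Finset.prod_union (Finset.disjoint_sdiff_inter T S).symm,
        Finset.union_comm, Finset.sdiff_union_inter]
    have e5 : ∏ h ∈ symmDiff S T, sh a b c h n =
        (∏ h ∈ S \ T, sh a b c h n) * ∏ h ∈ T \ S, sh a b c h n := by
      rw [← Finset.prod_union (disjoint_sdiff_sdiff)]
      rfl
    rw [e3, e4, e5]
    linear_combination (-(∏ h ∈ S \ T, sh a b c h n) * (∏ h ∈ T \ S, sh a b c h n)) *
      (e1 * ((∏ h ∈ S ∩ T, sh a b c h n) * (∏ h ∈ S ∩ T, sh a b c h n))) - 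
      ((∏ h ∈ S \ T, sh a b c h n) * (∏ h ∈ T \ S, sh a b c h n)) * e2
  refine ⟨m₁ * m₂, Nat.mul_pos h1 h2, N₁ + N₂ + N₃, fun n hn => ?_⟩
  simp only
  rw [hprod n (by omega), hprod (n + m₁ * m₂) (by omega)]
  have a1 := it (fun n => u n * ∏ h ∈ S, sh a b c h n) m₁ N₁ hS m₂ n (by omega)
  have a2 := it (fun n => u n * ∏ h ∈ T, sh a b c h n) m₂ N₂ hT m₁ n (by omega)
  rw [mul_comm m₂ m₁] at a1
  rw [a1, a2]

/-- the sign `e` occurs infinitely often on the class `r mod M` for both `e` -/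
def Both (f : ℕ → ℤ) (M r : ℕ) : Prop :=
  ∀ e : ℤ, e = 1 ∨ e = -1 → {n : ℕ | n ≡ r [MOD M] ∧ f n = e}.Infinite

theorem lam_prod (T : Finset ℤ) (f : ℤ → ℤ) : lam (∏ h ∈ T, f h) = ∏ h ∈ T, lam (f h) := by
  classical
  induction T using Finset.induction_on with
  | empty => simp [lam]
  | insert x T hx ih => rw [Finset.prod_insert hx, Finset.prod_insert hx, lam_mul, ih]

/-- reduction of a residue class to all integers -/
theorem class_prod {a b c : ℤ} {M r : ℕ} (hM : 1 ≤ M) {ρ : ℤ} (T : Finset ℤ)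
    (hT : ∀ h ∈ T, h ≡ ρ [ZMOD M]) (x : ℕ) :
    ∏ h ∈ T, sh a b c h (M * x + r) =
      ∏ k ∈ T.image (fun h => (h - ρ) / M), sh (a * M ^ 2) (M * (2 * a * (r + ρ) + b))
        (a * (r + ρ) ^ 2 + b * (r + ρ) + c) k x := by
  classical
  have hM' : (M : ℤ) ≠ 0 := by exact_mod_cast (by omega : M ≠ 0)
  have hdiv : ∀ h ∈ T, (M : ℤ) * ((h - ρ) / M) = h - ρ := fun h hh =>
    Int.mul_ediv_cancel' (hT h hh).symm.dvd
  rw [Finset.prod_image]
  · apply Finset.prod_congr rfl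
    intro h hh
    have h1 := hdiv h hh
    unfold sh
    congr 1
    push_cast
    have h2 : h = ρ + M * ((h - ρ) / M) := by linarith
    generalize (h - ρ) / (M : ℤ) = k at h2
    subst h2
    ring
  · intro h hh h' hh' he
    have h1 := hdiv h hh
    have h2 := hdiv h' hh'
    simp only at he
    rw [he] at h1
    linarith

theorem disc_class {a b c : ℤ} (hD : ¬ IsSquare (b ^ 2 - 4 * a * c)) {M r : ℕ} (hM : 1 ≤ M)
    (ρ : ℤ) : ¬ IsSquare ((M * (2 * a * (r + ρ) + b)) ^ 2 - 4 * (a * M ^ 2) *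
      (a * (r + ρ) ^ 2 + b * (r + ρ) + c)) := by
  have hqz : (0 : ℤ) < M := by exact_mod_cast hM
  have e : ((M : ℤ) * (2 * a * (r + ρ) + b)) ^ 2 - 4 * (a * M ^ 2) *
      (a * (r + ρ) ^ 2 + b * (r + ρ) + c) = (M : ℤ) ^ 2 * (b ^ 2 - 4 * a * c) := by ring
  rw [e]
  rintro ⟨x, hx⟩
  have h1 : (M : ℤ) ^ 2 ∣ x ^ 2 := ⟨b ^ 2 - 4 * a * c, by rw [hx]; ring⟩
  have h2 : (M : ℤ) ∣ x := (Int.pow_dvd_pow_iff two_ne_zero).1 h1
  obtain ⟨y, rfl⟩ := h2
  apply hD
  refine ⟨y, ?_⟩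
  have h3 : (M : ℤ) ^ 2 * (b ^ 2 - 4 * a * c) = (M : ℤ) ^ 2 * (y * y) := by rw [hx]; ring
  exact mul_left_cancel₀ (pow_ne_zero 2 hqz.ne') h3

theorem image_inj {M : ℕ} {ρ : ℤ} {S T : Finset ℤ}
    (hS : ∀ h ∈ S, h ≡ ρ [ZMOD M]) (hT : ∀ h ∈ T, h ≡ ρ [ZMOD M])
    (h : S.image (fun h => (h - ρ) / (M : ℤ)) = T.image (fun h => (h - ρ) / (M : ℤ))) : S = T := by
  classical
  have back : ∀ U : Finset ℤ, (∀ h ∈ U, h ≡ ρ [ZMOD M]) →
      (U.image (fun h => (h - ρ) / (M : ℤ))).image (fun k => ρ + M * k) = U := by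
    intro U hU
    rw [Finset.image_image]
    have : Finset.image ((fun k => ρ + (M : ℤ) * k) ∘ fun h => (h - ρ) / (M : ℤ)) U =
        Finset.image id U := by
      apply Finset.image_congr
      intro x hx
      simp only [Function.comp, id]
      rw [Int.mul_ediv_cancel' (hU x hx).symm.dvd]
      ring
    rw [this, Finset.image_id]
  rw [← back S hS, ← back T hT, h]

/-- no product is eventually periodic on a residue class -/
theorem not_per_class {a b c : ℤ} (hD : ¬ IsSquare (b ^ 2 - 4 * a * c)) {M : ℕ} (r : ℕ)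
    (hM : 1 ≤ M) {ρ : ℤ} (T : Finset ℤ) (hne : T.Nonempty) (hT : ∀ h ∈ T, h ≡ ρ [ZMOD M]) :
    ¬ EvPer (fun x : ℕ => ∏ h ∈ T, sh a b c h (M * x + r)) := by
  classical
  have h1 := not_per (disc_class hD (r := r) hM ρ) (T.image (fun h => (h - ρ) / (M : ℤ)))
    (hne.image _)
  intro h2
  apply h1
  obtain ⟨m, hm, N₀, h3⟩ := h2
  refine ⟨m, hm, N₀, fun n hn => ?_⟩
  have := h3 n hn
  simp only at this ⊢
  rw [class_prod hM T hT, class_prod hM T hT] at this
  exact this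

/-- if one sign occurs only finitely often the sequence of signs is eventually constant -/
theorem evper_of_not_both {f : ℕ → ℤ} {M r : ℕ} (hM : 1 ≤ M)
    (hf : ∃ N₀ : ℕ, ∀ n, N₀ ≤ n → f n = 1 ∨ f n = -1) (h : ¬ Both f M r) :
    ∃ e : ℤ, ∃ N₁ : ℕ, ∀ x : ℕ, N₁ ≤ x → f (M * x + r) = e := by
  unfold Both at h
  push Not at h
  obtain ⟨e, he, hfin⟩ := h
  obtain ⟨B, hB⟩ := hfin.bddAbove
  obtain ⟨N₀, hf⟩ := hf
  refine ⟨-e, N₀ + B + 1, fun x hx => ?_⟩
  have hx' : N₀ + B + 1 ≤ M * x + r := le_trans hx (le_trans (Nat.le_mul_of_pos_left x hM)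
    (Nat.le_add_right _ _))
  have h1 : f (M * x + r) ≠ e := by
    intro h2
    have h3 : M * x + r ∈ {n : ℕ | n ≡ r [MOD M] ∧ f n = e} :=
      ⟨by simp [Nat.ModEq], h2⟩
    have := hB h3
    omega
  rcases hf (M * x + r) (by omega) with h2 | h2 <;> rcases he with h3 | h3
  · exact absurd (h2.trans h3.symm) h1
  · rw [h2, h3]; norm_num
  · rw [h2, h3]
  · exact absurd (h2.trans h3.symm) h1

/-- at most one exceptional finite set of shifts in every residue class -/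
theorem one_exception {a b c : ℤ} (hD : ¬ IsSquare (b ^ 2 - 4 * a * c)) {M : ℕ} (r : ℕ)
    (hM : 1 ≤ M) {ρ : ℤ} (g : ℕ → ℤ) (hg : ∃ N₀ : ℕ, ∀ n, N₀ ≤ n → g n ≠ 0) (S T : Finset ℤ)
    (hS : ∀ h ∈ S, h ≡ ρ [ZMOD M]) (hT : ∀ h ∈ T, h ≡ ρ [ZMOD M])
    (hS' : ¬ Both (fun n => lam (g n * ∏ h ∈ S, (a * ((n : ℤ) + h) ^ 2 + b * ((n : ℤ) + h) + c))) M r)
    (hT' : ¬ Both (fun n => lam (g n * ∏ h ∈ T, (a * ((n : ℤ) + h) ^ 2 + b * ((n : ℤ) + h) + c))) M r) :
    S = T := by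
  classical
  obtain ⟨N₀, hg⟩ := hg
  have key : ∀ U : Finset ℤ, (∀ h ∈ U, h ≡ ρ [ZMOD M]) →
      ¬ Both (fun n => lam (g n * ∏ h ∈ U, (a * ((n : ℤ) + h) ^ 2 + b * ((n : ℤ) + h) + c))) M r →
      EvPer (fun x : ℕ => lam (g (M * x + r)) * ∏ k ∈ U.image (fun h => (h - ρ) / (M : ℤ)),
        sh (a * M ^ 2) (M * (2 * a * (r + ρ) + b)) (a * (r + ρ) ^ 2 + b * (r + ρ) + c) k x) := by
    intro U hU hU'
    obtain ⟨e, N₁, h1⟩ := evper_of_not_both hM (by
      refine ⟨N₀, fun n hn => lam_val (mul_ne_zero (hg n hn) ?_)⟩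
      exact Finset.prod_ne_zero_iff.2 fun h _ => q_ne hD _) hU'
    have h2 : ∀ x : ℕ, N₁ ≤ x → lam (g (M * x + r)) * ∏ k ∈ U.image (fun h => (h - ρ) / (M : ℤ)),
        sh (a * M ^ 2) (M * (2 * a * (r + ρ) + b)) (a * (r + ρ) ^ 2 + b * (r + ρ) + c) k x = e := by
      intro x hx
      rw [← class_prod hM U hU, ← h1 x hx, lam_mul, lam_prod]
      rfl
    refine ⟨1, le_rfl, N₁, fun n hn => ?_⟩
    simp only
    rw [h2 n hn, h2 (n + 1) (by omega)]
  have h3 := one_set (disc_class hD (r := r) hM ρ) (fun x : ℕ => lam (g (M * x + r)))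
    ⟨N₀, fun n hn => lam_val (hg _ (by
      have : n ≤ M * n := Nat.le_mul_of_pos_left n hM
      omega))⟩ _ _ (key S hS hS') (key T hT hT')
  exact image_inj hS hT h3

end Pool.Agent.H96.QE
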